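/-
From irreducible representations to completely reducible and to arbitrary representations: the
hypothesis is that a given product of operators `ρ x - 1` vanishes.
-/
import Pool.Agent.H.MP_59b15d_al.lin.Unip

set_option autoImplicit false

namespace Pool.Agent.H.MP_59b15d_al.H8Q

universe u v w

open Module Pool.Agent.H.MP_59b15d_al.Lin

section semi

variable {F : Type u} [Field F] {Γ : Type w} [Group Γ]

/-- Irreducible representations: the only invariant subspaces are `⊥` and `⊤`, and `V` is not
zero. -/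
def Irr {V : Type v} [AddCommGroup V] [Module F V] (ρ : Γ →* Module.End F V) : Prop :=
  Nontrivial V ∧ ∀ U : Submodule F V, (∀ g, ∀ u ∈ U, ρ g u ∈ U) → U = ⊥ ∨ U = ⊤

/-- The product of the operators `ρ x - 1` over a list. -/
noncomputable def np {V : Type v} [AddCommGroup V] [Module F V] (ρ : Γ →* Module.End F V)
    (l : List Γ) : Module.End F V :=
  (l.map fun x => ρ x - 1).prod

lemma np_nil {V : Type v} [AddCommGroup V] [Module F V] (ρ : Γ →* Module.End F V) :
    np ρ [] = 1 := rfl

lemma np_cons {V : Type v} [AddCommGroup V] [Module F V] (ρ : Γ →* Module.End F V) (x : Γ)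
    (l : List Γ) : np ρ (x :: l) = (ρ x - 1) * np ρ l := rfl

lemma np_append {V : Type v} [AddCommGroup V] [Module F V] (ρ : Γ →* Module.End F V)
    (l l' : List Γ) : np ρ (l ++ l') = np ρ l * np ρ l' := by
  rw [np, List.map_append, List.prod_append]
  rfl

lemma np_res {V : Type v} [AddCommGroup V] [Module F V] (ρ : Γ →* Module.End F V)
    (W : Submodule F V) (hW : ∀ g, ∀ v ∈ W, ρ g v ∈ W) (l : List Γ) (x : W) :
    ((np (resW ρ W hW) l x : W) : V) = np ρ l (x : V) := by
  induction l with
  | nil => rfl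
  | cons y l ih =>
    rw [np_cons, np_cons, Module.End.mul_apply, Module.End.mul_apply, ← ih]
    rfl

lemma np_quo {V : Type v} [AddCommGroup V] [Module F V] (ρ : Γ →* Module.End F V)
    (W : Submodule F V) (hW : ∀ g, ∀ v ∈ W, ρ g v ∈ W) (l : List Γ) (x : V) :
    np (quoW ρ W hW) l (Submodule.Quotient.mk x) = Submodule.Quotient.mk (np ρ l x) := by
  induction l with
  | nil => rfl
  | cons y l ih =>
    rw [np_cons, np_cons, Module.End.mul_apply, Module.End.mul_apply, ih]
    rfl

lemma np_res_zero {V : Type v} [AddCommGroup V] [Module F V] {ρ : Γ →* Module.End F V}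
    (W : Submodule F V) (hW : ∀ g, ∀ v ∈ W, ρ g v ∈ W) {l : List Γ} (h : np ρ l = 0) :
    np (resW ρ W hW) l = 0 := by
  ext x
  rw [np_res, h]
  rfl

lemma np_quo_zero {V : Type v} [AddCommGroup V] [Module F V] {ρ : Γ →* Module.End F V}
    (W : Submodule F V) (hW : ∀ g, ∀ v ∈ W, ρ g v ∈ W) {l : List Γ} (h : np ρ l = 0) :
    np (quoW ρ W hW) l = 0 := by
  refine LinearMap.ext fun x => ?_
  obtain ⟨y, rfl⟩ := Submodule.Quotient.mk_surjective W x
  rw [np_quo, h]
  rfl

/-- A subrepresentation of a completely reducible representation is completely reducible. -/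
lemma compRed_res {V : Type v} [AddCommGroup V] [Module F V] {ρ : Γ →* Module.End F V}
    (hρ : CompRed ρ) (W : Submodule F V) (hW : ∀ g, ∀ v ∈ W, ρ g v ∈ W) :
    CompRed (resW ρ W hW) := by
  intro U hU
  obtain ⟨C, hC, hc⟩ := hρ (U.map W.subtype) (by
    rintro g _ ⟨u, hu, rfl⟩
    exact ⟨resW ρ W hW g u, hU g u hu, rfl⟩)
  refine ⟨C.comap W.subtype, fun g u hu => hC g _ hu, ?_⟩
  constructor
  · rw [disjoint_iff, eq_bot_iff]
    rintro x ⟨hx, hx'⟩
    have h1 : (x : V) ∈ U.map W.subtype ⊓ C := ⟨⟨x, hx, rfl⟩, hx'⟩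
    rw [hc.inf_eq_bot, Submodule.mem_bot] at h1
    rw [Submodule.mem_bot]
    exact Subtype.ext h1
  · rw [codisjoint_iff, eq_top_iff]
    rintro x -
    have h1 : (x : V) ∈ U.map W.subtype ⊔ C := by rw [hc.sup_eq_top]; exact Submodule.mem_top
    obtain ⟨_, ⟨u, hu, rfl⟩, c, hc', he⟩ := Submodule.mem_sup.1 h1
    have h2 : x = u + (x - u) := by abel
    rw [h2]
    refine Submodule.add_mem_sup hu ?_
    change ((x - u : W) : V) ∈ C
    have h3 : ((x - u : W) : V) = c := by
      rw [Submodule.coe_sub, ← he]
      change (u : V) + c - (u : V) = c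
      abel
    rw [h3]
    exact hc'

/-- A nonzero finite dimensional representation contains an irreducible one. -/
lemma exists_irr {V : Type v} [AddCommGroup V] [Module F V] [FiniteDimensional F V]
    (ρ : Γ →* Module.End F V) (h : Nontrivial V) :
    ∃ (W : Submodule F V) (hW : ∀ g, ∀ v ∈ W, ρ g v ∈ W), W ≠ ⊥ ∧ Irr (resW ρ W hW) := by
  classical
  let P : ℕ → Prop := fun d => ∃ W : Submodule F V, (∀ g, ∀ v ∈ W, ρ g v ∈ W) ∧ W ≠ ⊥ ∧
    finrank F W = d
  have hP : ∃ d, P d := ⟨_, ⊤, fun _ _ _ => Submodule.mem_top, top_ne_bot, rfl⟩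
  obtain ⟨W, hW, hb, hd⟩ := Nat.find_spec hP
  refine ⟨W, hW, hb, Submodule.nontrivial_iff_ne_bot.2 hb, fun U hU => ?_⟩
  by_cases hUb : U = ⊥
  · exact Or.inl hUb
  · right
    have h1 : P (finrank F (U.map W.subtype)) := by
      refine ⟨U.map W.subtype, ?_, ?_, rfl⟩
      · rintro g _ ⟨u, hu, rfl⟩
        exact ⟨resW ρ W hW g u, hU g u hu, rfl⟩
      · intro h2
        apply hUb
        rw [eq_bot_iff]
        intro x hx
        have h3 : (x : V) ∈ U.map W.subtype := ⟨x, hx, rfl⟩
        rw [h2, Submodule.mem_bot] at h3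
        rw [Submodule.mem_bot]
        exact Subtype.ext h3
    have h2 : Nat.find hP ≤ finrank F (U.map W.subtype) := Nat.find_min' hP h1
    rw [← hd] at h2
    have h3 : finrank F (U.map W.subtype) = finrank F U :=
      LinearEquiv.finrank_eq (Submodule.equivMapOfInjective W.subtype W.injective_subtype U).symm
    rw [h3] at h2
    by_contra hne
    have h4 := Submodule.finrank_lt hne
    omega

/-- If the elements of `T` act trivially in all irreducible representations with `np ρ l = 0`, then
they act trivially in all completely reducible ones. -/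
theorem triv_of_irr {T : Set Γ} {l : List Γ}
    (hT : ∀ (V : Type v) [AddCommGroup V] [Module F V] [FiniteDimensional F V]
      (ρ : Γ →* Module.End F V), Irr ρ → np ρ l = 0 → ∀ φ ∈ T, ρ φ = 1)
    (V : Type v) [AddCommGroup V] [Module F V] [FiniteDimensional F V]
    (ρ : Γ →* Module.End F V) (hρ : CompRed ρ) (hl : np ρ l = 0) : ∀ φ ∈ T, ρ φ = 1 := by
  obtain ⟨d, hd⟩ : ∃ d, finrank F V ≤ d := ⟨_, le_rfl⟩
  induction d generalizing V with
  | zero =>
    intro φ _
    have : Subsingleton V := finrank_zero_iff.1 (Nat.le_zero.1 hd)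
    exact Subsingleton.elim _ _
  | succ d ih =>
    intro φ hφ
    rcases subsingleton_or_nontrivial V with hV | hV
    · exact Subsingleton.elim _ _
    · obtain ⟨W, hW, hb, hirr⟩ := exists_irr ρ hV
      obtain ⟨C, hC, hc⟩ := hρ W hW
      have h1 := hT W (resW ρ W hW) hirr (np_res_zero W hW hl) φ hφ
      have h2 : finrank F C ≤ d := by
        have e1 := Submodule.finrank_add_eq_of_isCompl hc
        have : Nontrivial W := Submodule.nontrivial_iff_ne_bot.2 hb
        have e2 : 0 < finrank F W := finrank_pos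
        omega
      have h3 := ih C (resW ρ C hC) (compRed_res hρ C hC) (np_res_zero C hC hl) h2 φ hφ
      ext x
      have hx : x ∈ W ⊔ C := by rw [hc.sup_eq_top]; exact Submodule.mem_top
      obtain ⟨y, hy, z, hz, rfl⟩ := Submodule.mem_sup.1 hx
      have e1 : ρ φ y = y := congrArg Subtype.val (DFunLike.congr_fun h1 (⟨y, hy⟩ : W))
      have e2 : ρ φ z = z := congrArg Subtype.val (DFunLike.congr_fun h3 (⟨z, hz⟩ : C))
      rw [map_add, e1, e2]
      rfl

/-- If the elements of `T` act trivially in all irreducible representations with `np ρ l = 0`, then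
in every representation with `np ρ l = 0` a product of at least `dim V` operators `ρ φ - 1`, with
`φ` in `T`, is zero. -/
theorem unip_of_irr {T : Set Γ} {l : List Γ}
    (hT : ∀ (V : Type v) [AddCommGroup V] [Module F V] [FiniteDimensional F V]
      (ρ : Γ →* Module.End F V), Irr ρ → np ρ l = 0 → ∀ φ ∈ T, ρ φ = 1)
    (V : Type v) [AddCommGroup V] [Module F V] [FiniteDimensional F V]
    (ρ : Γ →* Module.End F V) (hl : np ρ l = 0) :
    ∀ t : List Γ, (∀ φ ∈ t, φ ∈ T) → finrank F V ≤ t.length → np ρ t = 0 := by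
  obtain ⟨d, hd⟩ : ∃ d, finrank F V ≤ d := ⟨_, le_rfl⟩
  induction d generalizing V with
  | zero =>
    intro t _ _
    have : Subsingleton V := finrank_zero_iff.1 (Nat.le_zero.1 hd)
    exact Subsingleton.elim _ _
  | succ d ih =>
    intro t ht hlen
    rcases subsingleton_or_nontrivial V with hV | hV
    · exact Subsingleton.elim _ _
    by_cases hc : ∃ W : Submodule F V, (∀ g, ∀ v ∈ W, ρ g v ∈ W) ∧ W ≠ ⊥ ∧ W ≠ ⊤
    · obtain ⟨W, hW, hb, htop⟩ := hc
      have e1 : finrank F (V ⧸ W) + finrank F W = finrank F V :=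
        Submodule.finrank_quotient_add_finrank W
      have e2 : finrank F W < finrank F V := Submodule.finrank_lt htop
      have e3 : 0 < finrank F W := by
        have : Nontrivial W := Submodule.nontrivial_iff_ne_bot.2 hb
        exact finrank_pos
      have hsplit : t.take (finrank F W) ++ t.drop (finrank F W) = t := List.take_append_drop _ t
      have hs1 : finrank F W ≤ (t.take (finrank F W)).length := by
        rw [List.length_take]
        omega
      have hs2 : finrank F (V ⧸ W) ≤ (t.drop (finrank F W)).length := by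
        rw [List.length_drop]
        omega
      have q1 := ih (V ⧸ W) (quoW ρ W hW) (np_quo_zero W hW hl) (by omega)
        (t.drop (finrank F W)) (fun φ hφ => ht φ (List.mem_of_mem_drop hφ)) hs2
      have q2 := ih W (resW ρ W hW) (np_res_zero W hW hl) (by omega)
        (t.take (finrank F W)) (fun φ hφ => ht φ (List.mem_of_mem_take hφ)) hs1
      rw [← hsplit, np_append]
      ext x
      rw [Module.End.mul_apply, LinearMap.zero_apply]
      have hx : np ρ (t.drop (finrank F W)) x ∈ W := by
        rw [← Submodule.Quotient.mk_eq_zero, ← np_quo ρ W hW, q1, LinearMap.zero_apply]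
      have h3 := np_res ρ W hW (t.take (finrank F W)) ⟨_, hx⟩
      rw [q2, LinearMap.zero_apply] at h3
      exact h3.symm
    · push Not at hc
      have hirr : Irr ρ := ⟨hV, fun U hU => or_iff_not_imp_left.2 fun hne => hc U hU hne⟩
      have h0 : 0 < finrank F V := finrank_pos
      obtain ⟨φ, m, rfl⟩ : ∃ φ m, t = φ :: m := by
        cases t with
        | nil => simp only [List.length_nil] at hlen; omega
        | cons φ m => exact ⟨φ, m, rfl⟩
      rw [np_cons, hT V ρ hirr hl φ (ht φ List.mem_cons_self), sub_self, zero_mul]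

end semi

end Pool.Agent.H.MP_59b15d_al.H8Q
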